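import Pool.Agent.Helper4.CD.St

/-!
# Project CD (MP_a41ee4_co), module AVO: avoiding finitely many proper affine conditions near a point
-/

set_option autoImplicit false

namespace Pool.Agent.Helper21.CD

open Pool.Agent.Helper4.CD
open Module

theorem hAVO : StAVO := by
  classical
  intro K _ _ _ V _ _ κ _ ψ F w₀ δ hδ
  have := Fintype.ofFinite κ
  let S : Finset (Submodule K V) := (F.filter fun A => A.1 ≠ 0).image fun A => LinearMap.ker A.1
  have hS : ⊤ ∉ S := by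
    intro h
    obtain ⟨A, hA, hA'⟩ := Finset.mem_image.1 h
    exact (Finset.mem_filter.1 hA).2 (LinearMap.ker_eq_top.1 hA')
  have hne := Subspace.biUnion_ne_univ_of_top_notMem hS
  obtain ⟨ρ, hρ⟩ := (Set.ne_univ_iff_exists_notMem _).1 hne
  have hρ' : ∀ A ∈ F, A.1 ≠ 0 → A.1 ρ ≠ 0 := by
    intro A hA hA0 h
    refine hρ (Set.mem_biUnion (x := LinearMap.ker A.1) ?_ (LinearMap.mem_ker.2 h))
    exact Finset.mem_coe.2 (Finset.mem_image.2 ⟨A, Finset.mem_filter.2 ⟨hA, hA0⟩, rfl⟩)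
  let C : K := 1 + ∑ k, |ψ k ρ|
  have hC1 : 0 < C := by
    have : 0 ≤ ∑ k, |ψ k ρ| := Finset.sum_nonneg fun _ _ => abs_nonneg _
    exact add_pos_of_pos_of_nonneg one_pos this
  have hCk : ∀ k, |ψ k ρ| < C := by
    intro k
    have h1 := Finset.single_le_sum (f := fun k => |ψ k ρ|) (fun _ _ => abs_nonneg _) (Finset.mem_univ k)
    have h2 : ∑ k, |ψ k ρ| < C := lt_one_add _
    exact lt_of_le_of_lt h1 h2
  let Z : Set K := ⋃ A ∈ F, {t : K | A.1 ≠ 0 ∧ A.1 (w₀ + t • ρ) + A.2 = 0}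
  have hZ : Z.Finite := by
    refine Set.Finite.biUnion F.finite_toSet fun A hA => Set.Subsingleton.finite ?_
    rintro s ⟨hA0, hs⟩ t ⟨-, ht⟩
    rw [map_add, map_smul] at hs ht
    have h1 : (s - t) • A.1 ρ = 0 := by
      rw [sub_smul]
      have h2 : s • A.1 ρ = -(A.1 w₀ + A.2) := by
        rw [eq_neg_iff_add_eq_zero]
        rw [← hs]
        abel
      have h3 : t • A.1 ρ = -(A.1 w₀ + A.2) := by
        rw [eq_neg_iff_add_eq_zero]
        rw [← ht]
        abel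
      rw [h2, h3, sub_self]
    rcases smul_eq_zero.1 h1 with h2 | h2
    · exact sub_eq_zero.1 h2
    · exact absurd h2 (hρ' A hA hA0)
  obtain ⟨t, ht, htZ⟩ := (Set.Ioo_infinite (div_pos hδ hC1)).exists_notMem_finite hZ
  refine ⟨w₀ + t • ρ, fun k => ?_, fun A hA hA0 h => htZ ?_⟩
  · rw [add_sub_cancel_left, map_smul, smul_eq_mul, abs_mul, abs_of_pos ht.1]
    calc t * |ψ k ρ| ≤ t * C := mul_le_mul_of_nonneg_left (hCk k).le ht.1.le
      _ < δ := by
        have := ht.2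
        rwa [lt_div_iff₀ hC1] at this
  · exact Set.mem_biUnion (Finset.mem_coe.2 hA) ⟨hA0, h⟩

end Pool.Agent.Helper21.CD
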